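import Pool.Agent.N929.ON.Stm

/-!
# Project ON (helper929): every row is reached (HIT)
-/

set_option autoImplicit false

namespace Pool.Agent.N401.ON

open Pool.Agent.N929.ON

theorem dir_add : ∀ k : Fin 6, dir (k + 1) + dir (k - 1) = dir k := by decide

theorem dir_row : ∀ k : Fin 6, (dir (k + 1)).2 ≤ 1 ∧
    ((dir (k + 1)).2 = 1 → (dir k).2 = 1 ∨ k = 0) := by decide

theorem faces (σ : ℤ × ℤ → Bool) (s : St) :
    ((step σ s).1 = front s ∧ rt (step σ s) = rt s) ∨
      ((step σ s).1 = s.1 ∧ rt (step σ s) = front s) := by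
  unfold step
  by_cases h : σ (front s) = true
  · rw [if_pos h]
    refine Or.inl ⟨rfl, ?_⟩
    change s.1 + dir (s.2 + 1) + dir (s.2 - 1) = s.1 + dir s.2
    rw [add_assoc, dir_add]
  · rw [if_neg h]
    exact Or.inr ⟨rfl, rfl⟩

theorem pt_succ (σ : ℤ × ℤ → Bool) (a : ℤ) (i : ℕ) : pt σ a (i + 1) = step σ (pt σ a i) :=
  Function.iterate_succ_apply' _ _ _

theorem rows (σ : ℤ × ℤ → Bool) {a y : ℤ} (hy : 0 ≤ y) (i : ℕ) :
    (∀ i' < i, (front (pt σ a i')).2 ≤ y) → (pt σ a i).1.2 ≤ y ∧ (rt (pt σ a i)).2 ≤ y := by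
  induction i with
  | zero =>
    intro _
    constructor
    · exact hy
    · change (0 : ℤ) + (dir 0).2 ≤ y
      have h0 : (dir 0).2 = 0 := by decide
      rw [h0]
      omega
  | succ i ih =>
    intro h
    have h1 := ih fun i' hi' => h i' (by omega)
    have h2 := h i (by omega)
    rw [pt_succ]
    rcases faces σ (pt σ a i) with ⟨e1, e2⟩ | ⟨e1, e2⟩
    · rw [e1, e2]
      exact ⟨h2, h1.2⟩
    · rw [e1, e2]
      exact ⟨h1.1, h2⟩

theorem valid (hinj : S_INJ) (σ : ℤ × ℤ → Bool) (a : ℤ) (h0 : Val σ (start a)) (i : ℕ) :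
    Val σ (pt σ a i) := by
  induction i with
  | zero => exact h0
  | succ i ih =>
    rw [pt_succ]
    exact (hinj σ).1 _ ih

/-- the state at the first visit of a face above the row `y` -/
theorem first {s : St} {y : ℤ} (h1 : s.1.2 ≤ y) (h2 : (rt s).2 ≤ y) (h3 : y < (front s).2) :
    ∃ x, s = ((x, y), 0) := by
  obtain ⟨⟨x, r⟩, k⟩ := s
  change r ≤ y at h1
  change r + (dir k).2 ≤ y at h2
  change y < r + (dir (k + 1)).2 at h3
  obtain ⟨h4, h5⟩ := dir_row k
  have h6 : (dir (k + 1)).2 = 1 := by omega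
  have h7 : r = y := by omega
  rcases h5 h6 with h8 | h8
  · omega
  · exact ⟨x, by rw [h7, h8]⟩

theorem bounds {W L : ℕ} {a b : ℤ} {σ : ℤ × ℤ → Bool} (hp : Par W L a b) (hb : Bdy W L a b σ)
    {x y : ℤ} (hy : 0 ≤ y) (hyL : y ≤ L) (hv : Val σ ((x, y), 0)) : 0 ≤ x ∧ x ≤ W := by
  obtain ⟨hL, ha, haW, -, -⟩ := hp
  obtain ⟨h1, h2⟩ := hv
  have e : rt ((x, y), 0) = (x + 1, y) := by
    have h0 : dir 0 = (1, 0) := by decide
    change (x, y) + dir 0 = _
    rw [h0, Prod.mk_add_mk, add_zero]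
  rw [e] at h2
  change σ (x, y) = true at h1
  have hnd : ∀ u : ℤ, (u < 1 ∨ (W : ℤ) < u ∨ y < 1) → σ (u, y) = bd L a b (u, y) := by
    intro u hu
    refine hb _ fun hm => ?_
    unfold Dom at hm
    rw [Finset.mem_product, Finset.mem_Icc, Finset.mem_Icc] at hm
    obtain ⟨⟨m1, m2⟩, m3, m4⟩ := hm
    change 1 ≤ u at m1
    change u ≤ (W : ℤ) at m2
    change 1 ≤ y at m3
    omega
  by_cases h0 : y = 0
  · rw [hnd x (by omega)] at h1
    rw [hnd (x + 1) (by omega)] at h2
    unfold bd at h1 h2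
    rw [if_pos (show (x, y).2 ≤ 0 from h0.le)] at h1
    rw [if_pos (show (x + 1, y).2 ≤ 0 from h0.le)] at h2
    have h3 : x ≤ a := of_decide_eq_true h1
    have h4 : ¬ (x + 1 ≤ a) := of_decide_eq_false h2
    omega
  · have hn : ¬ y ≤ 0 := by omega
    constructor
    · by_contra hx
      rw [hnd (x + 1) (by omega)] at h2
      unfold bd at h2
      rw [if_neg (show ¬ (x + 1, y).2 ≤ 0 from hn), if_pos (show (x + 1, y).2 ≤ (L : ℤ) from hyL)]
        at h2
      have h4 : ¬ (x + 1 ≤ 0) := of_decide_eq_false h2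
      omega
    · by_contra hx
      rw [hnd x (by omega)] at h1
      unfold bd at h1
      rw [if_neg (show ¬ (x, y).2 ≤ 0 from hn), if_pos (show (x, y).2 ≤ (L : ℤ) from hyL)] at h1
      have h4 : x ≤ 0 := of_decide_eq_true h1
      omega

theorem front_hit {σ : ℤ × ℤ → Bool} {a y : ℤ} {i : ℕ} {x : ℤ} (h : Hit σ a y i x) :
    y < (front (pt σ a i)).2 := by
  rw [h.1]
  have h0 : (dir ((0 : Fin 6) + 1)).2 = 1 := by decide
  change y < y + (dir ((0 : Fin 6) + 1)).2
  rw [h0]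
  omega

theorem hit (hinj : S_INJ) (hexit : S_EXIT) : S_HIT := by
  refine ⟨?_, ?_, ?_⟩
  · intro W L a b σ hp hb y hy hyL
    obtain ⟨hv, ⟨N, -, hN⟩, -⟩ := hexit W L a b σ hp hb
    have hex : ∃ i, y < (front (pt σ a i)).2 := by
      by_contra hne
      push Not at hne
      have h1 := (rows σ hy N fun i' _ => hne i').1
      rw [hN] at h1
      change (L : ℤ) + 1 ≤ y at h1
      omega
    classical
    have h1 := Nat.find_spec hex
    have h2 : ∀ i' < Nat.find hex, (front (pt σ a i')).2 ≤ y := fun i' hi' =>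
      not_lt.1 (Nat.find_min hex hi')
    obtain ⟨h3, h4⟩ := rows σ hy _ h2
    obtain ⟨x, hx⟩ := first h3 h4 h1
    have h5 := valid hinj σ a hv (Nat.find hex)
    rw [hx] at h5
    obtain ⟨h6, h7⟩ := bounds hp hb hy hyL h5
    obtain ⟨m, rfl⟩ := Int.eq_ofNat_of_zero_le h6
    exact ⟨_, m, Nat.zero_le m, Int.ofNat_le.1 h7, hx, h2⟩
  · intro σ σ' a y i x _ h hσ
    have key : ∀ i' ≤ i, pt σ' a i' = pt σ a i' := by
      intro i'
      induction i' with
      | zero => intro _; rfl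
      | succ i' ih =>
        intro hi'
        rw [pt_succ, pt_succ, ih (by omega)]
        have h1 := hσ _ (h.2 i' (by omega))
        unfold step
        rw [h1]
    refine ⟨⟨(key i le_rfl).trans h.1, fun i' hi' => ?_⟩, key⟩
    rw [key i' hi'.le]
    exact h.2 i' hi'
  · intro σ a y i i' x x' h h'
    have h1 : i = i' := by
      rcases lt_trichotomy i i' with h1 | h1 | h1
      · exact absurd (h'.2 i h1) (not_le.2 (front_hit h))
      · exact h1
      · exact absurd (h.2 i' h1) (not_le.2 (front_hit h'))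
    subst h1
    have h2 := h.1.symm.trans h'.1
    exact ⟨rfl, congrArg (fun s : St => s.1.1) h2⟩

end Pool.Agent.N401.ON
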